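import Mathlib
import Pool.Agent.Mg.F43e117.G856353

set_option autoImplicit false

namespace Pool.Agent.Results.MP_644200_nt.FunctionField

open Pool.Agent.MP_644200_nt

/-- List the monic polynomials over a finite field of characteristic two with at least eight
elements by degree and then lexicographically, `0` being the least digit, and let `p n` be the
position of the `n`-th irreducible one. Then for infinitely many `n` the ratio
`p (n + 1) ^ (1 / (n + 1)) / p n ^ (1 / n)` exceeds `1 + log n / (4 * n ^ 2)`. -/
theorem result (F : Type) [Field F] [Fintype F] [CharP F 2] (hq : 8 ≤ Fintype.card F)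
    (dig : F ≃ Fin (Fintype.card F)) (h0 : (dig 0 : ℕ) = 0) :
    ∃ᶠ n : ℕ in Filter.atTop, 1 + Real.log n / (4 * (n : ℝ) ^ 2) <
      (pr dig (n + 1) : ℝ) ^ (1 / ((n : ℝ) + 1)) / (pr dig n : ℝ) ^ (1 / (n : ℝ)) :=
  main dig hq h0

end Pool.Agent.Results.MP_644200_nt.FunctionField
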