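import Mathlib
import Pool.Agent.MP_644200_nt.RB

set_option autoImplicit false

namespace Pool.Agent.Results.MP_644200_nt.RareFailure

open Pool.Agent.MP_644200_nt Polynomial Filter
open scoped Topology

/-- List the monic polynomials over a finite field of characteristic two by degree and then
lexicographically, and let `p n` be the position of the `n`-th irreducible one. The `n ≤ N` with
`p (n + 1) ^ (1 / (n + 1)) / p n ^ (1 / n) ≥ 1 - c * log n / n ^ 2`, `c < 1`, are `o (N / log N)`
in number. -/
theorem result (F : Type) [Field F] [Fintype F] [CharP F 2]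
    (dig : F ≃ Fin (Fintype.card F)) (c : ℝ) (hc : c < 1) :
    Tendsto (fun N : ℕ => ({n : ℕ | n ≤ N ∧ 1 - c * Real.log n / (n : ℝ) ^ 2 ≤
      (pr dig (n + 1) : ℝ) ^ (1 / ((n : ℝ) + 1)) / (pr dig n : ℝ) ^ (1 / (n : ℝ))}.ncard : ℝ) *
        Real.log N / N) atTop (𝓝 0) :=
  RB.rare dig hc

end Pool.Agent.Results.MP_644200_nt.RareFailure
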