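import Mathlib
import Pool.Agent.MP_644200_nt.RB

set_option autoImplicit false

namespace Pool.Agent.Results.MP_644200_nt.ShortIntervals

open Pool.Agent.MP_644200_nt Polynomial

/-- Over a finite field of characteristic two, almost all short intervals of size at least
`K * n` in degree `n` contain an irreducible polynomial. -/
theorem result (F : Type) [Field F] [Fintype F] [CharP F 2] (ε : ℝ) (hε : 0 < ε) :
    ∃ K n₀ : ℕ, ∀ n, n₀ ≤ n → ∀ j : ℕ, K * n ≤ Fintype.card F ^ j →
      ({f : F[X] | f.Monic ∧ f.natDegree = n ∧
        ∀ y : F[X], y.degree < j → ¬ Irreducible (f + y)}.ncard : ℝ) ≤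
          ε * (Fintype.card F : ℝ) ^ n :=
  RB.short hε

end Pool.Agent.Results.MP_644200_nt.ShortIntervals
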